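import Mathlib

namespace Pool.Agent.Results.MP_da4765_co.IndexLe

/-- The edge colouring `c` (only its values on edges of `G` matter) is distinguishing: the only
automorphism of `G` preserving the colour of every edge is the identity. -/
def Distinguishing {V : Type*} (G : SimpleGraph V) {d : ℕ} (c : Sym2 V → Fin d) : Prop :=
  ∀ φ : G ≃g G, (∀ a b, G.Adj a b → c s(φ a, φ b) = c s(a, b)) → ∀ v, φ v = v

/-- `G` has a `d`-distinguishing edge colouring. -/
def HasDist {V : Type*} (G : SimpleGraph V) (d : ℕ) : Prop :=
  ∃ c : Sym2 V → Fin d, Distinguishing G c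

/-- The distinguishing index `D'(G)`. -/
noncomputable def distIndex {V : Type*} (G : SimpleGraph V) : ℕ := sInf {d | HasDist G d}

/-- The adjacency of the Mycielskian: `some (inl a)` is `v_a`, `some (inr a)` is `u_a`, and `none`
is `w`. -/
def mAdj {V : Type*} (G : SimpleGraph V) : Option (V ⊕ V) → Option (V ⊕ V) → Prop
  | some (Sum.inl a), some (Sum.inl b) => G.Adj a b
  | some (Sum.inl a), some (Sum.inr b) => G.Adj a b
  | some (Sum.inr a), some (Sum.inl b) => G.Adj a b
  | some (Sum.inr _), none => True
  | none, some (Sum.inr _) => True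
  | _, _ => False

/-- The Mycielskian of `G`. -/
def mycielskian {V : Type*} (G : SimpleGraph V) : SimpleGraph (Option (V ⊕ V)) where
  Adj := mAdj G
  symm := ⟨by
    rintro (_ | (a | a)) (_ | (b | b)) h <;> simp only [mAdj] at h ⊢
    · exact h.symm
    · exact h.symm
    · exact h.symm⟩
  loopless := ⟨by
    rintro (_ | (a | a)) h <;> simp only [mAdj] at h
    exact G.loopless.irrefl a h⟩

variable {V : Type*} {G : SimpleGraph V} {d : ℕ}

def colAux (c : Sym2 V → Fin d) (κ : Fin d) : Option (V ⊕ V) → Option (V ⊕ V) → Fin d
  | some (Sum.inl a), some (Sum.inl b) => c s(a, b)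
  | some (Sum.inl a), some (Sum.inr b) => c s(a, b)
  | some (Sum.inr a), some (Sum.inl b) => c s(a, b)
  | some (Sum.inr a), some (Sum.inr b) => c s(a, b)
  | _, _ => κ

theorem colAux_symm (c : Sym2 V → Fin d) (κ : Fin d) (x y : Option (V ⊕ V)) :
    colAux c κ x y = colAux c κ y x := by
  rcases x with _ | (a | a) <;> rcases y with _ | (b | b) <;> simp only [colAux] <;>
    rw [Sym2.eq_swap]

def col (c : Sym2 V → Fin d) (κ : Fin d) : Sym2 (Option (V ⊕ V)) → Fin d :=
  Sym2.lift ⟨colAux c κ, colAux_symm c κ⟩

theorem col_mk (c : Sym2 V → Fin d) (κ : Fin d) (x y : Option (V ⊕ V)) :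
    col c κ s(x, y) = colAux c κ x y := rfl

open Classical in
theorem twin {c : Sym2 V → Fin d} (hc : Distinguishing G c) {j k : V}
    (h : ∀ x, G.Adj j x ↔ G.Adj k x) (h2 : ∀ x, G.Adj j x → c s(j, x) = c s(k, x)) : j = k := by
  by_contra hne
  have hjk : ¬ G.Adj j k := fun h' => G.loopless.irrefl k ((h k).mp h')
  have key : ∀ a, G.Adj (Equiv.swap j k a) = G.Adj a := by
    intro a
    funext x
    by_cases h1 : a = j
    · rw [h1, Equiv.swap_apply_left]; exact propext (h x).symm
    · by_cases h3 : a = k
      · rw [h3, Equiv.swap_apply_right]; exact propext (h x)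
      · rw [Equiv.swap_apply_of_ne_of_ne h1 h3]
  have key2 : ∀ a x, G.Adj a x → c s(Equiv.swap j k a, x) = c s(a, x) := by
    intro a x hax
    by_cases h1 : a = j
    · rw [h1] at hax
      rw [h1, Equiv.swap_apply_left]; exact (h2 x hax).symm
    · by_cases h3 : a = k
      · rw [h3] at hax
        rw [h3, Equiv.swap_apply_right]; exact h2 x ((h x).mpr hax)
      · rw [Equiv.swap_apply_of_ne_of_ne h1 h3]
  have := hc ⟨Equiv.swap j k, by
      intro a b
      rw [key a, G.adj_comm, key b, G.adj_comm]⟩ (by
      intro a b hab
      show c s(Equiv.swap j k a, Equiv.swap j k b) = c s(a, b)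
      rw [key2 a _ (by rw [G.adj_comm, key b]; exact hab.symm), Sym2.eq_swap,
        key2 b a hab.symm, Sym2.eq_swap]) j
  have h4 : Equiv.swap j k j = j := this
  rw [Equiv.swap_apply_left] at h4
  exact hne h4.symm

theorem three [Fintype V] (h3 : 3 ≤ Fintype.card V) :
    ∃ a b e : V, a ≠ b ∧ a ≠ e ∧ b ≠ e := by
  have : 2 < Fintype.card V := h3
  rw [Fintype.two_lt_card_iff] at this
  exact this

/-- An automorphism of the Mycielskian preserving the colouring fixes `w`. -/
theorem fix_w [Fintype V] (h3 : 3 ≤ Fintype.card V) {c : Sym2 V → Fin d}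
    (hc : Distinguishing G c) (κ : Fin d) (α : mycielskian G ≃g mycielskian G)
    (hα : ∀ x y, (mycielskian G).Adj x y → col c κ s(α x, α y) = col c κ s(x, y)) :
    α none = none := by
  classical
  by_contra hne
  obtain ⟨x, hx⟩ := α.surjective none
  have adj : ∀ {p q}, (mycielskian G).Adj (α p) (α q) ↔ (mycielskian G).Adj p q :=
    fun {p q} => α.map_adj_iff
  -- preimages of the vertices `u_a`
  have hpre : ∀ a : V, ∃ p, α p = some (Sum.inr a) ∧ (mycielskian G).Adj x p := by
    intro a
    obtain ⟨p, hp⟩ := α.surjective (some (Sum.inr a))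
    refine ⟨p, hp, ?_⟩
    rw [← adj, hx, hp]
    trivial
  choose P hP hPadj using hpre
  have hPinj : Function.Injective P := by
    intro a b hab
    have := hP a
    rw [hab, hP b] at this
    simpa using this.symm
  rcases x with _ | (i | i)
  · exact hne hx
  · -- `x = v_i`
    -- two distinct neighbours of `i`
    have hj : ∃ j k, j ≠ k ∧ G.Adj i j ∧ G.Adj i k := by
      obtain ⟨a, b, e, hab, hae, hbe⟩ := three h3
      have hQ : ∀ a, ∃ j, G.Adj i j ∧ (P a = some (Sum.inl j) ∨ P a = some (Sum.inr j)) := by
        intro a
        have h1 := hPadj a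
        rcases h : P a with _ | (j | j)
        · rw [h] at h1; exact h1.elim
        · rw [h] at h1; exact ⟨j, h1, Or.inl rfl⟩
        · rw [h] at h1; exact ⟨j, h1, Or.inr rfl⟩
      obtain ⟨ja, ha, ha'⟩ := hQ a
      obtain ⟨jb, hb, hb'⟩ := hQ b
      obtain ⟨je, he, he'⟩ := hQ e
      by_cases e1 : ja = jb
      · by_cases e2 : ja = je
        · exfalso
          subst e1 e2
          rcases ha' with ha' | ha' <;> rcases hb' with hb' | hb' <;>
            rcases he' with he' | he'
          · exact hab (hPinj (ha'.trans hb'.symm))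
          · exact hab (hPinj (ha'.trans hb'.symm))
          · exact hae (hPinj (ha'.trans he'.symm))
          · exact hbe (hPinj (hb'.trans he'.symm))
          · exact hbe (hPinj (hb'.trans he'.symm))
          · exact hae (hPinj (ha'.trans he'.symm))
          · exact hab (hPinj (ha'.trans hb'.symm))
          · exact hab (hPinj (ha'.trans hb'.symm))
        · exact ⟨ja, je, e2, ha, he⟩
      · exact ⟨ja, jb, e1, ha, hb⟩
    obtain ⟨j, k, hjk, hij, hik⟩ := hj
    -- images of `v_j`, `v_k` are `u_a`, `u_b`
    have him : ∀ j, G.Adj i j → ∃ a, α (some (Sum.inl j)) = some (Sum.inr a) := by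
      intro j hij
      have h1 : (mycielskian G).Adj (α (some (Sum.inl i))) (α (some (Sum.inl j))) := by
        rw [adj]; exact hij
      rw [hx] at h1
      rcases h : α (some (Sum.inl j)) with _ | (a | a)
      · rw [h] at h1; exact h1.elim
      · rw [h] at h1; exact h1.elim
      · exact ⟨a, rfl⟩
    obtain ⟨a, ha⟩ := him j hij
    obtain ⟨b, hb⟩ := him k hik
    have hab : a ≠ b := by
      intro h
      rw [h, ← hb] at ha
      have := α.injective ha
      simp only [Option.some.injEq, Sum.inl.injEq] at this
      exact hjk this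
    -- the image of `u_i` is `v_m`
    have hm : ∃ m, α (some (Sum.inr i)) = some (Sum.inl m) := by
      rcases h : α (some (Sum.inr i)) with _ | (m | m)
      · exfalso
        rw [← hx] at h
        have := α.injective h
        simp at this
      · exact ⟨m, rfl⟩
      · exfalso
        have h1 : ¬ (mycielskian G).Adj (α (some (Sum.inl i))) (α (some (Sum.inr i))) := by
          rw [adj]; exact G.loopless.irrefl i
        rw [hx, h] at h1
        exact h1 trivial
    obtain ⟨m, hm⟩ := hm
    have hw : ∀ j a, G.Adj i j → α (some (Sum.inl j)) = some (Sum.inr a) →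
        α none = some (Sum.inl a) := by
      intro j a hij ha
      have h1 : (mycielskian G).Adj (α (some (Sum.inr i))) (α (some (Sum.inl j))) := by
        rw [adj]; exact hij
      rw [hm, ha] at h1
      -- `m ~ a`
      have hma : G.Adj m a := h1
      obtain ⟨q, hq⟩ := α.surjective (some (Sum.inl a))
      have h2 : (mycielskian G).Adj (some (Sum.inr i)) q := by
        rw [← adj, hm, hq]; exact hma
      have h4 : ¬ (mycielskian G).Adj (some (Sum.inl i)) q := by
        rw [← adj, hx, hq]; exact fun h => h
      rcases q with _ | (q | q)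
      · exact hq
      · exact absurd h2 h4
      · exact h2.elim
    have w1 := hw j a hij ha
    have w2 := hw k b hik hb
    rw [w1] at w2
    simp only [Option.some.injEq, Sum.inl.injEq] at w2
    exact hab w2
  · -- `x = u_i`
    have hcol : ∀ j, G.Adj i j → c s(i, j) = κ := by
      intro j hij
      have h1 : (mycielskian G).Adj (some (Sum.inr i)) (some (Sum.inl j)) := hij
      have h2 := hα _ _ h1
      rw [hx, col_mk, col_mk] at h2
      have h5 : colAux c κ (some (Sum.inr i)) (some (Sum.inl j)) = c s(i, j) := rfl
      rw [h5] at h2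
      rw [← h2]
      rcases h : α (some (Sum.inl j)) with _ | (a | a) <;> rfl
    -- neighbours of `i` are pairwise non-adjacent
    have hind : ∀ j k, G.Adj i j → G.Adj i k → ¬ G.Adj j k := by
      intro j k hij hik hjk
      have him : ∀ j, G.Adj i j → ∃ a, α (some (Sum.inl j)) = some (Sum.inr a) := by
        intro j hij
        have h1 : (mycielskian G).Adj (α (some (Sum.inr i))) (α (some (Sum.inl j))) := by
          rw [adj]; exact hij
        rw [hx] at h1
        rcases h : α (some (Sum.inl j)) with _ | (a | a)
        · rw [h] at h1; exact h1.elim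
        · rw [h] at h1; exact h1.elim
        · exact ⟨a, rfl⟩
      obtain ⟨a, ha⟩ := him j hij
      obtain ⟨b, hb⟩ := him k hik
      have h1 : (mycielskian G).Adj (α (some (Sum.inl j))) (α (some (Sum.inl k))) := by
        rw [adj]; exact hjk
      rw [ha, hb] at h1
      exact h1
    -- `i` is adjacent to all other vertices
    have hQ : ∀ a, P a = none ∨ ∃ j, G.Adj i j ∧ P a = some (Sum.inl j) := by
      intro a
      have h1 := hPadj a
      rcases h : P a with _ | (j | j)
      · exact Or.inl rfl
      · rw [h] at h1; exact Or.inr ⟨j, h1, rfl⟩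
      · rw [h] at h1; exact h1.elim
    have hcard : Fintype.card V ≤ (Finset.univ.filter (fun j => G.Adj i j)).card + 1 := by
      have h1 : (Finset.univ : Finset V).image P ⊆
          insert none ((Finset.univ.filter (fun j => G.Adj i j)).image
            (fun j => some (Sum.inl j))) := by
        intro p hp
        rw [Finset.mem_image] at hp
        obtain ⟨a, -, rfl⟩ := hp
        rw [Finset.mem_insert, Finset.mem_image]
        rcases hQ a with h | ⟨j, h, h'⟩
        · exact Or.inl h
        · exact Or.inr ⟨j, by simpa using h, h'.symm⟩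
      have h2 := Finset.card_le_card h1
      rw [Finset.card_image_of_injective _ hPinj, Finset.card_univ] at h2
      exact h2.trans ((Finset.card_insert_le _ _).trans
        (Nat.add_le_add_right Finset.card_image_le 1))
    have hall : ∀ j, j ≠ i → G.Adj i j := by
      intro j hj
      have h1 : Finset.univ.filter (fun j => G.Adj i j) ⊆ Finset.univ.erase i := by
        intro k hk
        rw [Finset.mem_filter] at hk
        rw [Finset.mem_erase]
        refine ⟨?_, Finset.mem_univ _⟩
        rintro rfl
        exact G.loopless.irrefl _ hk.2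
      have h2 := Finset.eq_of_subset_of_card_le h1 (by
        rw [Finset.card_erase_of_mem (Finset.mem_univ _), Finset.card_univ]; omega)
      have h4 : j ∈ Finset.univ.erase i := Finset.mem_erase.mpr ⟨hj, Finset.mem_univ _⟩
      rw [← h2, Finset.mem_filter] at h4
      exact h4.2
    -- two leaves
    have hleaf : ∃ j k, j ≠ k ∧ j ≠ i ∧ k ≠ i := by
      obtain ⟨a, b, e, hab, hae, hbe⟩ := three h3
      by_cases h1 : a = i
      · exact ⟨b, e, hbe, fun h => hab (h1.trans h.symm), fun h => hae (h1.trans h.symm)⟩
      · by_cases h2 : b = i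
        · exact ⟨a, e, hae, h1, fun h => hbe (h2.trans h.symm)⟩
        · exact ⟨a, b, hab, h1, h2⟩
    obtain ⟨j, k, hjk, hji, hki⟩ := hleaf
    have hl : ∀ j, j ≠ i → ∀ x, G.Adj j x ↔ x = i := by
      intro j hj x
      constructor
      · intro h
        by_contra hxi
        exact hind j x (hall j hj) (hall x hxi) h
      · rintro rfl
        exact (hall j hj).symm
    apply hjk
    apply twin hc
    · intro x; rw [hl j hji, hl k hki]
    · intro x hx'
      rw [hl j hji] at hx'
      subst hx'
      rw [Sym2.eq_swap, hcol j (hall j hji), Sym2.eq_swap, hcol k (hall k hki)]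

theorem main [Fintype V] (h3 : 3 ≤ Fintype.card V) {c : Sym2 V → Fin d}
    (hc : Distinguishing G c) (κ : Fin d) : Distinguishing (mycielskian G) (col c κ) := by
  intro α hα
  have hw := fix_w h3 hc κ α hα
  have adj : ∀ {p q}, (mycielskian G).Adj (α p) (α q) ↔ (mycielskian G).Adj p q :=
    fun {p q} => α.map_adj_iff
  have hu : ∀ a, ∃ b, α (some (Sum.inr a)) = some (Sum.inr b) := by
    intro a
    have h1 : (mycielskian G).Adj (α none) (α (some (Sum.inr a))) := by
      rw [adj]; trivial
    rw [hw] at h1
    rcases h : α (some (Sum.inr a)) with _ | (b | b)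
    · rw [h] at h1; exact h1.elim
    · rw [h] at h1; exact h1.elim
    · exact ⟨b, rfl⟩
  have hv : ∀ a, ∃ b, α (some (Sum.inl a)) = some (Sum.inl b) := by
    intro a
    have h1 : ¬ (mycielskian G).Adj (α none) (α (some (Sum.inl a))) := by
      rw [adj]; exact fun h => h
    rw [hw] at h1
    rcases h : α (some (Sum.inl a)) with _ | (b | b)
    · rw [← hw] at h
      have := α.injective h
      simp at this
    · exact ⟨b, rfl⟩
    · rw [h] at h1; exact absurd trivial h1
  have hv' : ∀ a, ∃ b, α (some (Sum.inl b)) = some (Sum.inl a) := by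
    intro a
    obtain ⟨p, hp⟩ := α.surjective (some (Sum.inl a))
    rcases p with _ | (b | b)
    · rw [hw] at hp; simp at hp
    · exact ⟨b, hp⟩
    · obtain ⟨b', hb'⟩ := hu b
      rw [hb'] at hp; simp at hp
  choose g hg using hu
  choose f hf using hv
  have finj : Function.Injective f := by
    intro a b hab
    have := hf a
    rw [hab, ← hf b] at this
    have := α.injective this
    simpa using this
  have fsurj : Function.Surjective f := by
    intro a
    obtain ⟨b, hb⟩ := hv' a
    refine ⟨b, ?_⟩
    rw [hf b] at hb
    simpa using hb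
  have fadj : ∀ a b, G.Adj (f a) (f b) ↔ G.Adj a b := by
    intro a b
    have := @adj (some (Sum.inl a)) (some (Sum.inl b))
    rw [hf, hf] at this
    exact this
  have fid : ∀ a, f a = a := by
    have := hc ⟨Equiv.ofBijective f ⟨finj, fsurj⟩, by intro a b; exact fadj a b⟩ (by
      intro a b hab
      show c s(f a, f b) = c s(a, b)
      have := hα (some (Sum.inl a)) (some (Sum.inl b)) hab
      rw [hf, hf] at this
      exact this)
    exact this
  have gid : ∀ a, g a = a := by
    intro a
    apply twin hc
    · intro x
      have := @adj (some (Sum.inr a)) (some (Sum.inl x))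
      rw [hg, hf, fid] at this
      exact this
    · intro x hx
      have h1 : G.Adj a x := by
        have := @adj (some (Sum.inr a)) (some (Sum.inl x))
        rw [hg, hf, fid] at this
        exact this.mp hx
      have := hα (some (Sum.inr a)) (some (Sum.inl x)) h1
      rw [hg, hf, fid] at this
      exact this
  intro x
  rcases x with _ | (a | a)
  · exact hw
  · rw [hf, fid]
  · rw [hg, gid]

theorem hasDist_mycielskian [Fintype V] (h3 : 3 ≤ Fintype.card V) (h : HasDist G d) :
    HasDist (mycielskian G) d := by
  obtain ⟨c, hc⟩ := h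
  obtain ⟨a, -⟩ := three h3
  exact ⟨col c (c s(a, a)), main h3 hc _⟩

/-- A connected graph on at least three vertices has a distinguishing edge colouring. -/
theorem exists_dist [Fintype V] (hG : G.Connected) (h3 : 3 ≤ Fintype.card V) :
    ∃ d, HasDist G d := by
  classical
  refine ⟨Fintype.card (Sym2 V), Fintype.equivFin (Sym2 V), ?_⟩
  intro φ hφ v
  by_contra hv
  have hnt : Nontrivial V := Fintype.one_lt_card_iff_nontrivial.mp (by omega)
  have he : ∀ a b, G.Adj a b → s(φ a, φ b) = s(a, b) := fun a b hab =>
    (Fintype.equivFin (Sym2 V)).injective (hφ a b hab)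
  have h1 : ∀ b, G.Adj v b → φ v = b ∧ φ b = v := by
    intro b hb
    have := he v b hb
    rw [Sym2.eq_iff] at this
    rcases this with h | h
    · exact absurd h.1 hv
    · exact h
  obtain ⟨u, hu⟩ := hG.preconnected.exists_adj_of_nontrivial v
  have hu1 := h1 u hu
  have hvu : v ≠ u := hu.ne
  have h2 : ∀ b, G.Adj u b → b = v := by
    intro b hb
    have := he u b hb
    rw [Sym2.eq_iff] at this
    rcases this with h | h
    · exact absurd (h.1.symm.trans hu1.2) hvu.symm
    · rw [← h.1]; exact hu1.2
  have h4 : ∀ b, G.Adj v b → b = u := fun b hb => (h1 b hb).1.symm.trans hu1.1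
  -- the component of `v` is `{v, u}`
  have h5 : ∀ x, G.Reachable v x → x = v ∨ x = u := by
    intro x hx
    rw [SimpleGraph.reachable_iff_reflTransGen] at hx
    induction hx with
    | refl => exact Or.inl rfl
    | tail _ hab ih =>
      rcases ih with rfl | rfl
      · exact Or.inr (h4 _ hab)
      · exact Or.inl (h2 _ hab)
  obtain ⟨a, b, e, hab, hae, hbe⟩ := three h3
  have ka := h5 a (hG.preconnected v a)
  have kb := h5 b (hG.preconnected v b)
  have ke := h5 e (hG.preconnected v e)
  rcases ka with rfl | rfl <;> rcases kb with rfl | rfl <;> rcases ke with rfl | rfl <;>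
    first
    | exact hab rfl
    | exact hae rfl
    | exact hbe rfl

/-- `D'(μ(G)) ≤ D'(G)` for every connected graph with at least three vertices. -/
theorem result : ∀ (V : Type) [Fintype V] (G : SimpleGraph V), G.Connected →
    3 ≤ Fintype.card V →
    (∃ d, HasDist G d) ∧ (∀ d, HasDist G d → HasDist (mycielskian G) d) ∧
      distIndex (mycielskian G) ≤ distIndex G := by
  intro V _ G hG h3
  refine ⟨exists_dist hG h3, fun d h => hasDist_mycielskian h3 h, ?_⟩
  have h1 : HasDist G (distIndex G) := Nat.sInf_mem (exists_dist hG h3)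
  exact Nat.sInf_le (hasDist_mycielskian h3 h1)

end Pool.Agent.Results.MP_da4765_co.IndexLe
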